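import Pool.Agent.Helper81.LT.Mod

/-!
MP_c20641_lc, packet KCL: elementary substructures of the ultrapower are closed under definable
functions.
-/

namespace Pool.Agent.Helper1.LT

open FirstOrder Language Pool.Agent.Helper81.LT

attribute [local instance] stdStr

section

variable {M : Type} [CommSemiring M] [LinearOrder M]

/-- parameters can be eliminated if every element is definable -/
theorem noPar (hdef : ∀ a : M, ∃ φ : LA.Formula Unit, ∀ x, φ.Realize (fun _ => x) ↔ x = a)
    {α : Type} (P : (α → M) → Prop) (hP : Dfn P) :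
    ∃ χ : LA.Formula α, ∀ v, χ.Realize v ↔ P v := by
  classical
  obtain ⟨φ, hφ⟩ := hP
  let f : φ.freeVarFinset → α ⊕ φ.freeVarFinset := fun a =>
    match a.1 with
    | Sum.inl i => Sum.inl i
    | Sum.inr _ => Sum.inr a
  have hψ : ∀ a : φ.freeVarFinset, ∃ ψ : LA.Formula Unit, ∀ x, ψ.Realize (fun _ => x) ↔
      ∀ p, a.1 = Sum.inr p → x = p := by
    intro a
    rcases h : a.1 with i | p
    · exact ⟨⊤, fun x => by simp⟩
    · obtain ⟨ψ, hψ⟩ := hdef p
      refine ⟨ψ, fun x => (hψ x).trans ⟨?_, ?_⟩⟩
      · rintro rfl q hq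
        exact (Sum.inr.inj hq)
      · intro hq
        exact hq p rfl
  choose ψ hψ using hψ
  let φ' : LA.Formula (α ⊕ φ.freeVarFinset) := φ.restrictFreeVar f
  let θ : LA.Formula (α ⊕ φ.freeVarFinset) :=
    (Formula.iInf fun a : φ.freeVarFinset =>
      ((ψ a).relabel (fun _ : Unit => (Sum.inr a : α ⊕ φ.freeVarFinset)))) ⊓ φ'
  refine ⟨θ.iExs φ.freeVarFinset, fun v => ?_⟩
  rw [Formula.realize_iExs, ← hφ v]
  have hkey : ∀ i : φ.freeVarFinset → M, θ.Realize (Sum.elim v i) ↔
      (∀ a : φ.freeVarFinset, ∀ p, a.1 = Sum.inr p → i a = p) ∧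
        φ'.Realize (Sum.elim v i) := by
    intro i
    simp only [θ]
    rw [Formula.realize_inf, Formula.realize_iInf]
    refine and_congr (forall_congr' fun a => ?_) Iff.rfl
    rw [Formula.realize_relabel]
    exact hψ a (i a)
  have hval : ∀ i : φ.freeVarFinset → M, (∀ a : φ.freeVarFinset, ∀ p, a.1 = Sum.inr p → i a = p) →
      (φ'.Realize (Sum.elim v i) ↔
        φ.Realize (Sum.elim v id)) := by
    intro i hi
    refine BoundedFormula.realize_restrictFreeVar (Sum.elim v id) ?_
    intro a
    rcases h : a.1 with j | p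
    · have : f a = Sum.inl j := by simp only [f, h]
      rw [this]
      rfl
    · have : f a = Sum.inr a := by simp only [f, h]
      rw [this]
      exact hi a p h
  constructor
  · rintro ⟨i, hi⟩
    rw [hkey] at hi
    exact (hval i hi.1).1 hi.2
  · intro h
    have h0 : ∀ a : φ.freeVarFinset, ∃ x : M, ∀ p, a.1 = Sum.inr p → x = p := by
      intro a
      rcases h : a.1 with j | p
      · exact ⟨0, fun p hp => by cases hp⟩
      · exact ⟨p, fun q hq => Sum.inr.inj hq⟩
    choose i hi using h0
    exact ⟨i, (hkey i).2 ⟨hi, (hval i hi).2 h⟩⟩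

theorem kcl : KCL := by
  intro M _ _ _ _ hdef U K k g hg f hf
  obtain ⟨χ, hχ⟩ := noPar hdef _ hg
  have los : ∀ F : Fin (k + 1) → M → M, χ.Realize (fun i => cls U (F i)) ↔
      ∀ᶠ v in (U : Filter M), g (fun i => F i.castSucc v) = F (Fin.last k) v := by
    intro F
    have := Ultraproduct.realize_formula_cast (L := LA) (M := fun _ : M => M) (u := U) χ F
    exact this.trans (Filter.eventually_congr (Filter.Eventually.of_forall fun v => hχ _))
  let r : Fin (k + 1) → Fin k ⊕ Unit := Fin.lastCases (Sum.inr ()) Sum.inl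
  let E : LA.Formula (Fin k) := (χ.relabel r).iExs Unit
  have hr : ∀ {N : Type} (x : Fin k → N) (y : Unit → N) (i : Fin (k + 1)),
      (Sum.elim x y ∘ r) i = Fin.lastCases (motive := fun _ => N) (y ()) x i := by
    intro N x y i
    refine Fin.lastCases ?_ (fun j => ?_) i
    · simp [r]
    · simp [r]
  have hE1 : E.Realize (fun i => cls U (f i)) := by
    rw [Formula.realize_iExs]
    refine ⟨fun _ => cls U (fun v => g fun i => f i v), ?_⟩
    rw [Formula.realize_relabel]
    have h1 := (los (Fin.lastCases (motive := fun _ => M → M) (fun v => g fun i => f i v) f)).2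
      (Filter.Eventually.of_forall fun v => by simp)
    convert h1 using 1
    funext i
    rw [hr]
    refine Fin.lastCases ?_ (fun j => ?_) i
    · simp
    · simp
  have hE2 : E.Realize (fun i => (⟨cls U (f i), hf i⟩ : K)) :=
    (K.subtype.map_formula E (fun i => (⟨cls U (f i), hf i⟩ : K))).1 hE1
  rw [Formula.realize_iExs] at hE2
  obtain ⟨y, hy⟩ := hE2
  have hy' := (K.subtype.map_formula _ _).2 hy
  rw [Formula.realize_relabel] at hy'
  obtain ⟨h, hh⟩ : ∃ h : M → M, cls U h = (y () : UP U) := Quotient.exists_rep _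
  have h2 : χ.Realize (fun i => cls U ((Fin.lastCases (motive := fun _ => M → M) h f) i)) := by
    convert hy' using 1
    funext i
    refine Fin.lastCases ?_ (fun j => ?_) i
    · simp [r, hh]
    · simp [r]
  rw [los] at h2
  have h3 : cls U (fun v => g fun i => f i v) = cls U h := by
    refine Quotient.sound ?_
    change ∀ᶠ v in (U : Filter M), _
    filter_upwards [h2] with v hv
    simpa using hv
  rw [h3, hh]
  exact (y ()).2

end

end Pool.Agent.Helper1.LT
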